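import Pool.Agent.N469.CO.Main

/-!
# MP_b9f29c_an: a separable, nuclear, stably finite C*-algebra which is not locally approximable
by type I C*-subalgebras (the unitised cone over the Cuntz algebra `O_2`)
-/

set_option autoImplicit false

open scoped CStarAlgebra ComplexOrder InnerProductSpace

namespace Pool.Agent.Results.MP_b9f29c_an.NotLocallyTypeI

open Pool.Agent.N469.CO

/-- **Negative answer to Q1.** There is a unital separable C*-algebra which is nuclear and stably
finite and not locally approximable by type I C*-subalgebras. -/
theorem result : ∃ (A : Type) (_ : CStarAlgebra A) (_ : PartialOrder A) (_ : StarOrderedRing A),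
    TopologicalSpace.SeparableSpace A ∧ Nuclear A ∧ StablyFinite A ∧ ¬ LocTypeI A :=
  Pool.Agent.N469.CO.main

end Pool.Agent.Results.MP_b9f29c_an.NotLocallyTypeI
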